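import Mathlib

namespace Pool.Agent.helper69.SqFree

open Pell

lemma odd_dvd_two_pow (U : ℤ) (e : ℕ) (hU : Odd U) (h : U ∣ 2 ^ e) : U ^ 2 = 1 := by
  have h1 : IsCoprime U 2 := by
    obtain ⟨k, hk⟩ := hU
    exact ⟨1, -k, by rw [hk]; ring⟩
  have h2 : IsCoprime U (2 ^ e) := h1.pow_right
  have h3 : IsUnit U := h2.isUnit_of_dvd' (dvd_refl U) h
  rcases Int.isUnit_iff.mp h3 with h4 | h4 <;> rw [h4] <;> norm_num

/-- If `X = 2 ^ e` and `X ^ 2 + 1 = A * B ^ 2`, then `(X + B √A) ^ 2` is the smallest unit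
of norm one. -/
theorem two_pow_le {A : ℕ} (hA : 0 < A) (hns : ¬ IsSquare A) (e : ℕ) (B : ℤ) (hB : 0 < B)
    (h : (2 ^ e : ℤ) ^ 2 + 1 = A * B ^ 2) (a t : ℤ) (hat : a ^ 2 - A * t ^ 2 = 1) (ht : t ≠ 0) :
    2 * 2 ^ e * B ≤ |t| := by
  set X : ℤ := 2 ^ e with hX
  have hX0 : 0 < X := by positivity
  have hd0 : (0 : ℤ) < (A : ℤ) := by exact_mod_cast hA
  have hd : ¬ IsSquare (A : ℤ) := by
    intro hsq
    apply hns
    obtain ⟨r, hr⟩ := hsq
    refine ⟨r.natAbs, ?_⟩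
    have : (A : ℤ) = ((r.natAbs * r.natAbs : ℕ) : ℤ) := by
      rw [hr, Int.natAbs_mul_self]
    exact_mod_cast this
  obtain ⟨a₁, ha₁⟩ := IsFundamental.exists_of_not_isSquare hd0 hd
  have hsprop : (X ^ 2 + A * B ^ 2) ^ 2 - (A : ℤ) * (2 * X * B) ^ 2 = 1 := by
    have : (X ^ 2 + A * B ^ 2) ^ 2 - (A : ℤ) * (2 * X * B) ^ 2 = (A * B ^ 2 - X ^ 2) ^ 2 := by ring
    rw [this, ← h]; ring
  set σ : Solution₁ (A : ℤ) := Solution₁.mk (X ^ 2 + A * B ^ 2) (2 * X * B) hsprop with hσ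
  have hσx : σ.x = X ^ 2 + A * B ^ 2 := Solution₁.x_mk _ _ _
  have hσy : σ.y = 2 * X * B := Solution₁.y_mk _ _ _
  have hσx0 : 0 < σ.x := by rw [hσx]; positivity
  have hσy0 : 0 < σ.y := by rw [hσy]; positivity
  have hσx2 : σ.x = 2 * X ^ 2 + 1 := by rw [hσx, ← h]; ring
  obtain ⟨j, hj⟩ := ha₁.eq_pow_of_nonneg hσx0 hσy0.le
  have hkey : a₁.x = σ.x := by
    rcases Nat.even_or_odd j with he | ho
    · exfalso
      obtain ⟨i, hi⟩ := he
      have h1 : σ = a₁ ^ i * a₁ ^ i := by rw [hj, hi, pow_add]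
      set c := a₁ ^ i with hc
      have h2 : σ.x = c.x * c.x + A * (c.y * c.y) := by rw [h1, Solution₁.x_mul]
      have h3 := c.prop
      have h4 : c.x ^ 2 = X ^ 2 + 1 := by
        have : 2 * c.x ^ 2 - 1 = 2 * X ^ 2 + 1 := by
          rw [← hσx2, h2]; linear_combination (1 : ℤ) * h3
        linarith
      have h5 : |c.x| ^ 2 = X ^ 2 + 1 := by rw [sq_abs, h4]
      have h6 : 0 ≤ |c.x| := abs_nonneg _
      have h7 : X < |c.x| := by nlinarith
      nlinarith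
    · obtain ⟨i, hi⟩ := ho
      set c := a₁ ^ i with hc
      have hcp := c.prop
      have h1 : σ = c * c * a₁ := by rw [hj, hi, hc, pow_succ, two_mul, pow_add]
      have h2 : a₁ = σ * (c⁻¹ * c⁻¹) := by
        rw [h1]
        have : c * c * a₁ * (c⁻¹ * c⁻¹) = a₁ * (c * c⁻¹) * (c * c⁻¹) := by
          rw [mul_assoc (c * c) a₁, mul_comm a₁ (c⁻¹ * c⁻¹), ← mul_assoc]
          have e1 : c * c * (c⁻¹ * c⁻¹) = 1 := by group
          rw [e1]; simp
        rw [this]; simp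
      set s := X * c.x - A * B * c.y with hs
      set t' := B * c.x - X * c.y with ht'
      have hax : a₁.x = s ^ 2 + A * t' ^ 2 := by
        rw [h2, Solution₁.x_mul, Solution₁.x_mul, Solution₁.y_mul, Solution₁.x_inv,
          Solution₁.y_inv, hσx, hσy, hs, ht']
        ring
      have hay : a₁.y = 2 * s * t' := by
        rw [h2, Solution₁.y_mul, Solution₁.x_mul, Solution₁.y_mul, Solution₁.x_inv,
          Solution₁.y_inv, hσx, hσy, hs, ht']
        ring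
      have hnorm : s ^ 2 - A * t' ^ 2 = -1 := by
        have : s ^ 2 - A * t' ^ 2 = (X ^ 2 - A * B ^ 2) * (c.x ^ 2 - A * c.y ^ 2) := by
          rw [hs, ht']; ring
        rw [this, hcp]; linarith
      have hodd : Odd a₁.x := by
        have h3 : a₁.x = 2 * (s ^ 2) + 1 := by rw [hax]; linarith
        exact ⟨s ^ 2, h3⟩
      have hrec : ∀ n : ℕ, ∃ U : ℤ, Odd U ∧ s * (a₁ ^ n).x + A * t' * (a₁ ^ n).y = s * U := by
        intro n
        induction n with
        | zero => exact ⟨1, odd_one, by simp⟩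
        | succ n ih =>
          obtain ⟨U, hU, hS⟩ := ih
          refine ⟨a₁.x * U + 2 * (A * t' * (s * (a₁ ^ n).y + t' * (a₁ ^ n).x)), ?_, ?_⟩
          · exact (hodd.mul hU).add_even (even_two_mul _)
          · rw [pow_succ, Solution₁.x_mul, Solution₁.y_mul]
            have : s * ((a₁ ^ n).x * a₁.x + A * ((a₁ ^ n).y * a₁.y))
                + A * t' * ((a₁ ^ n).x * a₁.y + (a₁ ^ n).y * a₁.x)
                = a₁.x * (s * (a₁ ^ n).x + A * t' * (a₁ ^ n).y)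
                  + A * a₁.y * (s * (a₁ ^ n).y + t' * (a₁ ^ n).x) := by ring
            rw [this, hS, hay]; ring
      obtain ⟨U, hU, hS⟩ := hrec i
      rw [← hc] at hS
      have hXU : X = s * U := by
        rw [← hS, hs, ht']
        linear_combination (-X) * hcp
      have hU2 : U ^ 2 = 1 := odd_dvd_two_pow U e hU ⟨s, by rw [← hX, hXU]; ring⟩
      have hs2 : s ^ 2 = X ^ 2 := by rw [hXU, mul_pow, hU2, mul_one]
      rw [hax, hσx2]; linarith
  have hkeyy : a₁.y = σ.y := by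
    have h1 := a₁.prop
    have h2 := σ.prop
    have h3 : (A : ℤ) * a₁.y ^ 2 = A * σ.y ^ 2 := by rw [hkey] at h1; linarith
    have h4 : a₁.y ^ 2 = σ.y ^ 2 := mul_left_cancel₀ hd0.ne' h3
    have h5 : 0 < a₁.y := ha₁.2.1
    nlinarith
  have habs : |a| ^ 2 - (A : ℤ) * |t| ^ 2 = 1 := by rw [sq_abs, sq_abs]; exact hat
  have ht0 : 0 < |t| := abs_pos.mpr ht
  have hfin := ha₁.y_le_y (a := Solution₁.mk |a| |t| habs) (by
    rw [Solution₁.x_mk]
    have : 0 < (A : ℤ) * |t| ^ 2 := by positivity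
    have h0 : 0 ≤ |a| := abs_nonneg a
    nlinarith) (by rw [Solution₁.y_mk]; exact ht0)
  rw [Solution₁.y_mk, hkeyy, hσy] at hfin
  exact hfin

end Pool.Agent.helper69.SqFree
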