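import Mathlib

namespace Pool.Agent.helper69.SqFree

open Finset

/-- The number of scales `j` with `2 ^ j * n ≤ x`. -/
def scales (x n : ℕ) : ℕ := ((Finset.range (x + 1)).filter (fun j => 2 ^ j * n ≤ x)).card

lemma scales_eq (x n : ℕ) : scales x n
    = ∑ j ∈ Finset.range (x + 1), (if 2 ^ j * n ≤ x then 1 else 0) := by
  rw [scales, Finset.card_filter]

lemma card_divisors_eq (x n : ℕ) (hn : n ∈ Finset.Ioc 0 x) :
    (Nat.divisors n).card = ∑ d ∈ Finset.Ioc 0 x, (if d ∣ n then 1 else 0) := by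
  rw [← Finset.card_filter]
  congr 1
  ext d
  rw [Finset.mem_Ioc] at hn
  simp only [Nat.mem_divisors, Finset.mem_filter, Finset.mem_Ioc]
  constructor
  · rintro ⟨h1, h2⟩
    exact ⟨⟨Nat.pos_of_dvd_of_pos h1 hn.1, (Nat.le_of_dvd hn.1 h1).trans hn.2⟩, h1⟩
  · rintro ⟨-, h1⟩
    exact ⟨h1, by omega⟩

lemma count_le (x d j : ℕ) (hd : 0 < d) :
    ((∑ n ∈ Finset.Ioc 0 x, ((if d ∣ n then 1 else 0) * (if 2 ^ j * n ≤ x then 1 else 0) : ℕ) : ℕ) : ℝ)
      ≤ (x : ℝ) / d * (1 / 2) ^ j := by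
  have h1 : (∑ n ∈ Finset.Ioc 0 x, ((if d ∣ n then 1 else 0) * (if 2 ^ j * n ≤ x then 1 else 0) : ℕ))
      ≤ (x / 2 ^ j) / d := by
    have h2 : ∀ n : ℕ, ((if d ∣ n then 1 else 0) * (if 2 ^ j * n ≤ x then 1 else 0) : ℕ)
        = if (d ∣ n ∧ 2 ^ j * n ≤ x) then 1 else 0 := by
      intro n
      by_cases h : d ∣ n <;> by_cases h' : 2 ^ j * n ≤ x <;> simp [h, h']
    simp_rw [h2]
    rw [← Finset.card_filter, ← Nat.Ioc_filter_dvd_card_eq_div]
    apply Finset.card_le_card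
    intro n hn
    rw [Finset.mem_filter, Finset.mem_Ioc] at hn
    rw [Finset.mem_filter, Finset.mem_Ioc]
    refine ⟨⟨hn.1.1, ?_⟩, hn.2.1⟩
    rw [Nat.le_div_iff_mul_le (by positivity)]
    linarith [hn.2.2, mul_comm n (2 ^ j)]
  calc ((∑ n ∈ Finset.Ioc 0 x, ((if d ∣ n then 1 else 0) * (if 2 ^ j * n ≤ x then 1 else 0) : ℕ) : ℕ) : ℝ)
      ≤ (((x / 2 ^ j) / d : ℕ) : ℝ) := by exact_mod_cast h1
    _ ≤ ((x / 2 ^ j : ℕ) : ℝ) / d := Nat.cast_div_le
    _ ≤ ((x : ℝ) / (2 ^ j : ℕ)) / d := by gcongr; exact Nat.cast_div_le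
    _ = (x : ℝ) / d * (1 / 2) ^ j := by
      push_cast
      rw [one_div, inv_pow]
      field_simp

theorem div_sum (x : ℕ) :
    ((∑ n ∈ Finset.Ioc 0 x, (Nat.divisors n).card * scales x n : ℕ) : ℝ)
      ≤ 2 * x * (1 + Real.log x) := by
  have h1 : (∑ n ∈ Finset.Ioc 0 x, (Nat.divisors n).card * scales x n)
      = ∑ d ∈ Finset.Ioc 0 x, ∑ j ∈ Finset.range (x + 1), ∑ n ∈ Finset.Ioc 0 x,
        ((if d ∣ n then 1 else 0) * (if 2 ^ j * n ≤ x then 1 else 0) : ℕ) := by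
    have h2 : ∀ n ∈ Finset.Ioc 0 x, (Nat.divisors n).card * scales x n
        = ∑ d ∈ Finset.Ioc 0 x, ∑ j ∈ Finset.range (x + 1),
        ((if d ∣ n then 1 else 0) * (if 2 ^ j * n ≤ x then 1 else 0) : ℕ) := by
      intro n hn
      rw [card_divisors_eq x n hn, scales_eq, Finset.sum_mul_sum]
    rw [Finset.sum_congr rfl h2, Finset.sum_comm]
    refine Finset.sum_congr rfl (fun d _ => ?_)
    rw [Finset.sum_comm]
  rw [h1]
  push_cast
  have h3 : ∀ d ∈ Finset.Ioc 0 x, (∑ j ∈ Finset.range (x + 1), ∑ n ∈ Finset.Ioc 0 x,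
        ((if d ∣ n then (1 : ℝ) else 0) * (if 2 ^ j * n ≤ x then 1 else 0)))
        ≤ 2 * x * ((d : ℝ))⁻¹ := by
    intro d hd
    rw [Finset.mem_Ioc] at hd
    calc (∑ j ∈ Finset.range (x + 1), ∑ n ∈ Finset.Ioc 0 x,
        ((if d ∣ n then (1 : ℝ) else 0) * (if 2 ^ j * n ≤ x then 1 else 0)))
        ≤ ∑ j ∈ Finset.range (x + 1), (x : ℝ) / d * (1 / 2) ^ j := by
          refine Finset.sum_le_sum (fun j _ => ?_)
          have := count_le x d j hd.1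
          push_cast at this
          exact this
      _ = (x : ℝ) / d * ∑ j ∈ Finset.range (x + 1), (1 / 2 : ℝ) ^ j := by rw [Finset.mul_sum]
      _ ≤ (x : ℝ) / d * 2 := by
          gcongr
          have := sum_geometric_two_le (x + 1)
          exact this
      _ = 2 * x * ((d : ℝ))⁻¹ := by rw [div_eq_mul_inv]; ring
  calc _ ≤ ∑ d ∈ Finset.Ioc 0 x, 2 * (x : ℝ) * ((d : ℝ))⁻¹ := Finset.sum_le_sum h3
    _ = 2 * x * ∑ d ∈ Finset.Ioc 0 x, ((d : ℝ))⁻¹ := by rw [Finset.mul_sum]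
    _ ≤ 2 * x * (1 + Real.log x) := by
        gcongr
        have h4 := harmonic_le_one_add_log x
        have h5 : ((harmonic x : ℚ) : ℝ) = ∑ d ∈ Finset.Ioc 0 x, ((d : ℝ))⁻¹ := by
          rw [harmonic_eq_sum_Icc]
          push_cast
          rfl
        rw [h5] at h4
        exact h4

end Pool.Agent.helper69.SqFree
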