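import Mathlib

namespace Pool.Agent.helper69.SqFree

/-- A common divisor whose square divides `4 * A` divides `2`. -/
lemma dvd_two_of_sq_dvd {A : ℕ} (hA : Squarefree A) (g : ℕ) (h : g ^ 2 ∣ 4 * A) : g ∣ 2 := by
  rcases Nat.even_or_odd g with he | ho
  · obtain ⟨k, hk⟩ := he
    have hk2 : g = 2 * k := by omega
    subst hk2
    have h1 : k ^ 2 ∣ A := by
      have : (2 * k) ^ 2 = 4 * k ^ 2 := by ring
      rw [this] at h
      exact Nat.dvd_of_mul_dvd_mul_left (by norm_num) h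
    have h2 : IsUnit k := hA k (by rwa [← sq])
    rw [Nat.isUnit_iff] at h2
    subst h2
    norm_num
  · have h1 : Nat.Coprime (g ^ 2) 4 := by
      have : Nat.Coprime g 2 := Nat.coprime_two_right.mpr ho
      have h4 : (4 : ℕ) = 2 ^ 2 := by norm_num
      rw [h4]
      exact Nat.Coprime.pow 2 2 this
    have h2 : g ^ 2 ∣ A := h1.dvd_of_dvd_mul_left h
    have h3 : IsUnit g := hA g (by rwa [← sq])
    rw [Nat.isUnit_iff] at h3
    subst h3
    norm_num

/-- The number of square roots of a squarefree number modulo `n`. -/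
theorem roots_card {A : ℕ} (hA : Squarefree A) (n : ℕ) (hn : 0 < n) :
    ((Finset.range n).filter (fun b : ℕ => (n : ℤ) ∣ (b : ℤ) ^ 2 - (A : ℤ))).card
      ≤ 2 * (Nat.divisors n).card := by
  classical
  set S := (Finset.range n).filter (fun b : ℕ => (n : ℤ) ∣ (b : ℤ) ^ 2 - (A : ℤ)) with hS
  rcases S.eq_empty_or_nonempty with h0 | ⟨b0, hb0⟩
  · rw [h0]; simp
  have hb0' : (n : ℤ) ∣ (b0 : ℤ) ^ 2 - (A : ℤ) := by
    rw [hS, Finset.mem_filter] at hb0; exact hb0.2
  set f : ℕ → ℕ := fun b => Int.gcd (n : ℤ) ((b : ℤ) - b0) with hf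
  have himg : S.image f ⊆ Nat.divisors n := by
    intro d hd
    rw [Finset.mem_image] at hd
    obtain ⟨b, -, rfl⟩ := hd
    rw [Nat.mem_divisors]
    refine ⟨?_, hn.ne'⟩
    have := Int.gcd_dvd_left (a := (n : ℤ)) (b := (b : ℤ) - b0)
    exact Int.natCast_dvd_natCast.mp this
  have hmain : S.card ≤ 2 * (S.image f).card := by
    refine Finset.card_le_mul_card_image S 2 ?_
    intro d hd
    rw [Finset.mem_image] at hd
    obtain ⟨b1, hb1, hd1⟩ := hd
    -- properties of any member of the fibre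
    have hdn : d ∣ n := by
      rw [← hd1]
      exact Int.natCast_dvd_natCast.mp (Int.gcd_dvd_left (a := (n : ℤ)) (b := (b1 : ℤ) - b0))
    obtain ⟨e, he⟩ := hdn
    have hd0 : 0 < d := Nat.pos_of_ne_zero (by rintro rfl; simp at he; omega)
    have he0 : 0 < e := Nat.pos_of_ne_zero (by rintro rfl; simp at he; omega)
    have key : ∀ b ∈ S, f b = d → (d : ℤ) ∣ (b : ℤ) - b0 ∧ (e : ℤ) ∣ (b : ℤ) + b0 := by
      intro b hb hfb
      have h1 : (d : ℤ) ∣ (b : ℤ) - b0 := by
        rw [← hfb]; exact Int.gcd_dvd_right (a := (n : ℤ)) (b := (b : ℤ) - b0)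
      refine ⟨h1, ?_⟩
      obtain ⟨c, hc⟩ := h1
      have hcop : Int.gcd (e : ℤ) c = 1 := by
        have h2 : Int.gcd ((d : ℤ) * e) ((d : ℤ) * c) = d := by
          have h20 : ((d : ℤ) * e) = (n : ℤ) := by rw [he]; push_cast; ring
          rw [h20, ← hc]
          exact hfb
        rw [Int.gcd_mul_left] at h2
        have h3 : d * Int.gcd (e : ℤ) c = d * 1 := by simpa using h2
        exact Nat.eq_of_mul_eq_mul_left hd0 h3
      have h4 : (n : ℤ) ∣ (b : ℤ) ^ 2 - (b0 : ℤ) ^ 2 := by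
        rw [hS, Finset.mem_filter] at hb
        have := dvd_sub hb.2 hb0'
        have h5 : (b : ℤ) ^ 2 - A - ((b0 : ℤ) ^ 2 - A) = (b : ℤ) ^ 2 - (b0 : ℤ) ^ 2 := by ring
        rwa [h5] at this
      have h6 : (d : ℤ) * e ∣ d * (c * ((b : ℤ) + b0)) := by
        have h7 : (b : ℤ) ^ 2 - (b0 : ℤ) ^ 2 = d * (c * ((b : ℤ) + b0)) := by
          have : (b : ℤ) ^ 2 - (b0 : ℤ) ^ 2 = ((b : ℤ) - b0) * (b + b0) := by ring
          rw [this, hc]; ring
        rw [h7, he] at h4
        push_cast at h4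
        exact h4
      have h8 : (e : ℤ) ∣ c * ((b : ℤ) + b0) :=
        Int.dvd_of_mul_dvd_mul_left (by exact_mod_cast hd0.ne') h6
      exact Int.dvd_of_dvd_mul_right_of_gcd_one h8 hcop
    -- the gcd of `d` and `e`
    have hg : Nat.gcd d e ∣ 2 := by
      apply dvd_two_of_sq_dvd hA
      obtain ⟨k1, k2⟩ := key b1 hb1 hd1
      have g1 : ((Nat.gcd d e : ℕ) : ℤ) ∣ (d : ℤ) := Int.natCast_dvd_natCast.mpr (Nat.gcd_dvd_left d e)
      have g2 : ((Nat.gcd d e : ℕ) : ℤ) ∣ (e : ℤ) := Int.natCast_dvd_natCast.mpr (Nat.gcd_dvd_right d e)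
      have g3 : ((Nat.gcd d e : ℕ) : ℤ) ∣ 2 * (b0 : ℤ) := by
        have := dvd_sub (g2.trans k2) (g1.trans k1)
        have h5 : (b1 : ℤ) + b0 - ((b1 : ℤ) - b0) = 2 * b0 := by ring
        rwa [h5] at this
      have g4 : ((Nat.gcd d e : ℕ) : ℤ) ^ 2 ∣ 4 * (b0 : ℤ) ^ 2 := by
        have := pow_dvd_pow_of_dvd g3 2
        have h5 : (2 * (b0 : ℤ)) ^ 2 = 4 * (b0 : ℤ) ^ 2 := by ring
        rwa [h5] at this
      have g5 : ((Nat.gcd d e : ℕ) : ℤ) ^ 2 ∣ (n : ℤ) := by
        rw [he, sq]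
        push_cast
        exact mul_dvd_mul g1 g2
      have g6 : ((Nat.gcd d e : ℕ) : ℤ) ^ 2 ∣ 4 * (A : ℤ) := by
        have h6 := (g5.trans hb0').mul_left 4
        have h7 := dvd_sub g4 h6
        have h5 : 4 * (b0 : ℤ) ^ 2 - 4 * ((b0 : ℤ) ^ 2 - A) = 4 * (A : ℤ) := by ring
        rwa [h5] at h7
      exact_mod_cast g6
    set m := Nat.lcm d e with hm
    have hnm : n ≤ 2 * m := by
      have h1 : Nat.gcd d e * m = n := by rw [hm, Nat.gcd_mul_lcm, he]
      rw [← h1]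
      exact Nat.mul_le_mul_right _ (Nat.le_of_dvd (by norm_num) hg)
    have hm0 : 0 < m := Nat.lcm_pos hd0 he0
    refine le_trans (Finset.card_le_card_of_injOn (t := Finset.range 2) (fun b => b / m) ?_ ?_) ?_
    · intro b hb
      simp only [Finset.coe_filter, Set.mem_ofPred_eq] at hb
      have hbS := hb.1
      rw [hS, Finset.mem_filter, Finset.mem_range] at hbS
      simp only [Finset.coe_range, Set.mem_Iio]
      rw [Nat.div_lt_iff_lt_mul hm0]
      omega
    · intro b hb b' hb' hbb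
      simp only [Finset.coe_filter, Set.mem_ofPred_eq] at hb hb'
      simp only at hbb
      obtain ⟨k1, k2⟩ := key b hb.1 hb.2
      obtain ⟨k1', k2'⟩ := key b' hb'.1 hb'.2
      have h1 : (d : ℤ) ∣ (b : ℤ) - b' := by
        have := dvd_sub k1 k1'
        have h5 : (b : ℤ) - b0 - (b' - b0) = b - b' := by ring
        rwa [h5] at this
      have h2 : (e : ℤ) ∣ (b : ℤ) - b' := by
        have := dvd_sub k2 k2'
        have h5 : (b : ℤ) + b0 - (b' + b0) = b - b' := by ring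
        rwa [h5] at this
      have h3 : (m : ℤ) ∣ (b : ℤ) - b' := by
        have h4 : d ∣ ((b : ℤ) - b').natAbs := Int.natCast_dvd.mp h1
        have h5 : e ∣ ((b : ℤ) - b').natAbs := Int.natCast_dvd.mp h2
        exact Int.natCast_dvd.mpr (Nat.lcm_dvd h4 h5)
      have h4 : b % m = b' % m := by
        have := (Int.emod_emod_of_dvd (b : ℤ) (dvd_refl (m : ℤ)))
        have h5 : (b' : ℤ) ≡ (b : ℤ) [ZMOD m] := Int.modEq_iff_dvd.mpr h3
        have h6 : b' ≡ b [MOD m] := Int.natCast_modEq_iff.mp h5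
        exact h6.symm
      rw [← Nat.div_add_mod b m, ← Nat.div_add_mod b' m, hbb, h4]
    · simp
  exact hmain.trans (Nat.mul_le_mul_left 2 (Finset.card_le_card himg))

end Pool.Agent.helper69.SqFree
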