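import Mathlib
import Pool.Agent.helper69.SqFree.Roots
import Pool.Agent.helper69.SqFree.DivSum

namespace Pool.Agent.helper69.SqFree

open Finset

/-- The residue class attached to a primitive element `p + q √A` of norm `N`. -/
lemma root_exists (A p q N : ℤ) (hpq : IsCoprime p q) (hN : N = p ^ 2 - A * q ^ 2)
    (hN0 : N ≠ 0) : ∃ b : ℕ, b < N.natAbs ∧ N ∣ q * b - p ∧ N ∣ (b : ℤ) ^ 2 - A := by
  have h1 : IsCoprime N q := by
    have h2 : IsCoprime (p ^ 2) q := hpq.pow_left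
    have h3 := h2.add_mul_left_left (-A * q)
    have h4 : p ^ 2 + q * (-A * q) = N := by rw [hN]; ring
    rwa [h4] at h3
  obtain ⟨u, v, huv⟩ := h1
  -- u * N + v * q = 1
  refine ⟨((p * v) % N).toNat, ?_, ?_, ?_⟩
  · have h5 := Int.emod_lt_abs (p * v) hN0
    have h6 := Int.emod_nonneg (p * v) hN0
    rw [Int.abs_eq_natAbs] at h5
    omega
  · have h6 := Int.emod_nonneg (p * v) hN0
    rw [Int.toNat_of_nonneg h6]
    have h7 : (p * v) % N = p * v - N * ((p * v) / N) := by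
      have := Int.emod_add_mul_ediv (p * v) N
      linarith
    rw [h7]
    refine ⟨-(p * u) - q * ((p * v) / N), ?_⟩
    have : v * q = 1 - u * N := by linarith
    calc q * (p * v - N * (p * v / N)) - p = p * (v * q) - q * (N * (p * v / N)) - p := by ring
      _ = _ := by rw [this]; ring
  · have h6 := Int.emod_nonneg (p * v) hN0
    rw [Int.toNat_of_nonneg h6]
    set b := (p * v) % N with hb
    have h7 : (p * v) % N = p * v - N * ((p * v) / N) := by
      have := Int.emod_add_mul_ediv (p * v) N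
      linarith
    have h8 : N ∣ q * b - p := by
      rw [hb, h7]
      refine ⟨-(p * u) - q * ((p * v) / N), ?_⟩
      have : v * q = 1 - u * N := by linarith
      calc q * (p * v - N * (p * v / N)) - p = p * (v * q) - q * (N * (p * v / N)) - p := by ring
        _ = _ := by rw [this]; ring
    have h9 : N ∣ q ^ 2 * (b ^ 2 - A) := by
      have h10 : q ^ 2 * (b ^ 2 - A) = (q * b - p) * (q * b + p) + N := by rw [hN]; ring
      rw [h10]
      exact dvd_add (h8.mul_right _) (dvd_refl N)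
    have h11 : IsCoprime N (q ^ 2) := by
      apply IsCoprime.pow_right
      exact ⟨u, v, huv⟩
    exact h11.dvd_of_dvd_mul_left h9

/-- The unit attached to two elements with the same norm and the same residue class. -/
lemma unit_of_pair (A p₁ q₁ p₂ q₂ N b : ℤ) (hN0 : N ≠ 0) (h₁ : N = p₁ ^ 2 - A * q₁ ^ 2)
    (h₂ : N = p₂ ^ 2 - A * q₂ ^ 2) (hb₁ : N ∣ q₁ * b - p₁) (hb₂ : N ∣ q₂ * b - p₂)
    (hb : N ∣ b ^ 2 - A) (hne : p₁ * q₂ ≠ p₂ * q₁) :
    ∃ a t : ℤ, a ^ 2 - A * t ^ 2 = 1 ∧ t ≠ 0 ∧ p₁ * q₂ - p₂ * q₁ = N * t := by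
  obtain ⟨e₁, he₁⟩ := hb₁
  obtain ⟨e₂, he₂⟩ := hb₂
  obtain ⟨c, hc⟩ := hb
  have hp₁ : p₁ = q₁ * b - N * e₁ := by linarith
  have hp₂ : p₂ = q₂ * b - N * e₂ := by linarith
  have ht : p₁ * q₂ - p₂ * q₁ = N * (e₂ * q₁ - e₁ * q₂) := by rw [hp₁, hp₂]; ring
  have ha : p₁ * p₂ - A * (q₁ * q₂) = N * (q₁ * q₂ * c - q₁ * b * e₂ - q₂ * b * e₁ + N * e₁ * e₂) := by
    have hA : A = b ^ 2 - N * c := by linarith
    rw [hp₁, hp₂]
    have : (q₁ * b - N * e₁) * (q₂ * b - N * e₂) - A * (q₁ * q₂)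
        = q₁ * q₂ * (b ^ 2 - A) + N * (- q₁ * b * e₂ - q₂ * b * e₁ + N * e₁ * e₂) := by ring
    rw [this, hc]; ring
  refine ⟨q₁ * q₂ * c - q₁ * b * e₂ - q₂ * b * e₁ + N * e₁ * e₂, e₂ * q₁ - e₁ * q₂, ?_, ?_, ht⟩
  · set a := q₁ * q₂ * c - q₁ * b * e₂ - q₂ * b * e₁ + N * e₁ * e₂ with hadef
    set t := e₂ * q₁ - e₁ * q₂ with htdef
    have h3 : (N * a) ^ 2 - A * (N * t) ^ 2 = N * N := by
      rw [← ha, ← ht]
      have : (p₁ * p₂ - A * (q₁ * q₂)) ^ 2 - A * (p₁ * q₂ - p₂ * q₁) ^ 2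
        = (p₁ ^ 2 - A * q₁ ^ 2) * (p₂ ^ 2 - A * q₂ ^ 2) := by ring
      rw [this, ← h₁, ← h₂]
    have h4 : (N * N) * (a ^ 2 - A * t ^ 2) = (N * N) * 1 := by
      rw [mul_one]
      calc (N * N) * (a ^ 2 - A * t ^ 2) = (N * a) ^ 2 - A * (N * t) ^ 2 := by ring
        _ = N * N := h3
    exact mul_left_cancel₀ (mul_ne_zero hN0 hN0) h4
  · intro h0
    rw [h0, mul_zero, sub_eq_zero] at ht
    exact hne ht

/-- Norms of good approximations. -/
lemma norm_bound (A : ℕ) (p q : ℤ) (s T : ℝ) (hA : 1 ≤ A) (hq : 1 ≤ q) (hs : 1 ≤ s)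
    (hqs : (q : ℝ) * s ≤ T) (h : |(q : ℝ) * √(A : ℝ) - p| ≤ 1 / (T + 1)) :
    s * |((p ^ 2 - A * q ^ 2 : ℤ) : ℝ)| ≤ 2 * √(A : ℝ) := by
  set w := √(A : ℝ) with hw
  have hA' : (1 : ℝ) ≤ A := by exact_mod_cast hA
  have hw1 : 1 ≤ w := by
    rw [hw, Real.one_le_sqrt]; exact hA'
  have hw2 : w ^ 2 = A := Real.sq_sqrt (by positivity)
  have hq' : (1 : ℝ) ≤ q := by exact_mod_cast hq
  set δ := |(q : ℝ) * w - p| with hδ
  have hT : s ≤ T := by nlinarith
  have hT0 : 0 < T + 1 := by linarith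
  have hδ0 : 0 ≤ δ := abs_nonneg _
  have hδ1 : δ * (T + 1) ≤ 1 := by
    rw [le_div_iff₀ hT0] at h; exact h
  have h1 : |((p ^ 2 - A * q ^ 2 : ℤ) : ℝ)| = δ * |(q : ℝ) * w + p| := by
    rw [hδ, ← abs_mul, ← abs_neg]
    congr 1
    push_cast
    rw [← hw2]; ring
  have h2 : |(q : ℝ) * w + p| ≤ 2 * q * w + δ := by
    have h3 : (q : ℝ) * w + p = 2 * q * w - (q * w - p) := by ring
    rw [h3]
    calc |2 * q * w - (q * w - p)| ≤ |2 * q * w| + |(q : ℝ) * w - p| := abs_sub _ _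
      _ = 2 * q * w + δ := by
        rw [abs_of_nonneg (by positivity : (0 : ℝ) ≤ 2 * q * w)]
  rw [h1]
  have h4 : s * δ ≤ 1 := by nlinarith
  have hqs0 : 0 ≤ (q : ℝ) * s := by positivity
  calc s * (δ * |(q : ℝ) * w + p|) ≤ s * (δ * (2 * q * w + δ)) := by gcongr
    _ = δ * (2 * (q * s) * w + s * δ) := by ring
    _ ≤ δ * (2 * T * w + 2 * w) := by
        have h5 : 2 * (q * s) * w ≤ 2 * T * w := by gcongr
        have h6 : s * δ ≤ 2 * w := by linarith
        exact mul_le_mul_of_nonneg_left (add_le_add h5 h6) hδ0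
    _ = (δ * (T + 1)) * (2 * w) := by ring
    _ ≤ 1 * (2 * w) := by gcongr
    _ = 2 * w := one_mul _

/-- Existence of a small non-trivial solution of the Pell equation for squarefree `A`. -/
theorem exists_small_pell {A : ℕ} (hA : Squarefree A) (hns : ¬ IsSquare A) (K : ℕ)
    (hK : 8 * ((Nat.sqrt (4 * A) : ℕ) : ℝ) * (1 + Real.log ((Nat.sqrt (4 * A) : ℕ) : ℝ)) < K) :
    ∃ a t : ℤ, a ^ 2 - A * t ^ 2 = 1 ∧ t ≠ 0 ∧ 2 * |t| ≤ 2 ^ K := by
  classical
  have hA1 : 1 ≤ A := by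
    rcases Nat.eq_zero_or_pos A with h | h
    · subst h; exact absurd ⟨0, rfl⟩ hns
    · exact h
  set x := Nat.sqrt (4 * A) with hx
  set w := √(A : ℝ) with hw
  have hirr : Irrational w := irrational_sqrt_natCast_iff.mpr hns
  have hw2 : w ^ 2 = A := Real.sq_sqrt (by positivity)
  have hex : ∀ k : ℕ, ∃ r : ℚ, |w - r| ≤ 1 / ((((2 ^ k : ℕ) : ℝ) + 1) * r.den) ∧ r.den ≤ 2 ^ k :=
    fun k => Real.exists_rat_abs_sub_le_and_den_le w (n := 2 ^ k) (by positivity)
  choose r hr hden using hex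
  set p : ℕ → ℤ := fun k => (r k).num with hp
  set q : ℕ → ℤ := fun k => ((r k).den : ℤ) with hq
  set N : ℕ → ℤ := fun k => p k ^ 2 - (A : ℤ) * q k ^ 2 with hN
  have hq1 : ∀ k, 1 ≤ q k := by
    intro k
    have := (r k).den_pos
    simp only [hq]; omega
  have happ : ∀ k, |(q k : ℝ) * w - p k| ≤ 1 / ((2 : ℝ) ^ k + 1) := by
    intro k
    have h1 := hr k
    have hd0 : (0 : ℝ) < (r k).den := by exact_mod_cast (r k).den_pos
    have h2 : (q k : ℝ) * w - p k = (r k).den * (w - r k) := by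
      simp only [hq, hp]
      push_cast
      have h3 : ((r k : ℚ) : ℝ) = (r k).num / (r k).den := by
        exact_mod_cast (Rat.num_div_den (r k)).symm
      rw [mul_sub]
      congr 1
      rw [h3]; field_simp
    rw [h2, abs_mul, abs_of_pos hd0]
    calc ((r k).den : ℝ) * |w - r k| ≤ (r k).den * (1 / ((((2 ^ k : ℕ) : ℝ) + 1) * (r k).den)) := by gcongr
      _ = 1 / ((2 : ℝ) ^ k + 1) := by
        push_cast
        field_simp
  have hN0 : ∀ k, N k ≠ 0 := by
    intro k h0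
    have h1 : ((p k : ℝ)) ^ 2 = (A : ℝ) * (q k : ℝ) ^ 2 := by
      have : (p k : ℤ) ^ 2 = A * q k ^ 2 := by simp only [hN] at h0; linarith
      exact_mod_cast this
    have hq0 : (0 : ℝ) < q k := by exact_mod_cast (hq1 k)
    have h2 : ((p k : ℝ)) ^ 2 = (w * q k) ^ 2 := by rw [h1, mul_pow, hw2]
    have h3 : |(p k : ℝ)| = w * q k := by
      have hw0 : 0 ≤ w := Real.sqrt_nonneg _
      rw [← abs_of_nonneg (by positivity : 0 ≤ w * (q k : ℝ))]
      exact (sq_eq_sq_iff_abs_eq_abs _ _).mp h2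
    apply hirr
    refine ⟨|(p k : ℚ)| / q k, ?_⟩
    push_cast
    rw [h3]
    field_simp
  have hcop : ∀ k, IsCoprime (p k) (q k) := by
    intro k
    simp only [hp, hq]
    have := (r k).reduced
    rw [Int.isCoprime_iff_nat_coprime]
    simpa using this
  have hroot : ∀ k, ∃ b : ℕ, b < (N k).natAbs ∧ (N k) ∣ q k * b - p k ∧ (N k) ∣ (b : ℤ) ^ 2 - A :=
    fun k => root_exists A (p k) (q k) (N k) (hcop k) rfl (hN0 k)
  choose b hb1 hb2 hb3 using hroot
  -- size of the norms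
  have hsize : ∀ k j : ℕ, (q k : ℝ) * 2 ^ j ≤ 2 ^ k → 2 ^ j * (N k).natAbs ≤ x := by
    intro k j hkj
    have h1 := norm_bound A (p k) (q k) (2 ^ j) (2 ^ k) hA1 (hq1 k) (one_le_pow₀ (by norm_num)) hkj (happ k)
    rw [hx, Nat.le_sqrt']
    have h2 : (((2 ^ j * (N k).natAbs : ℕ)) : ℝ) ≤ 2 * w := by
      push_cast
      rw [Nat.cast_natAbs]
      simpa [hN] using h1
    have h3 : (((2 ^ j * (N k).natAbs : ℕ)) : ℝ) ^ 2 ≤ (2 * w) ^ 2 := by gcongr
    have h4 : (2 * w) ^ 2 = ((4 * A : ℕ) : ℝ) := by push_cast; rw [mul_pow, hw2]; norm_num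
    rw [h4] at h3
    exact_mod_cast h3
  -- labels
  set f : ℕ → (Σ _ : Bool × ℕ, ℕ) := fun k => ⟨(decide (0 < N k), (N k).natAbs), b k⟩ with hf
  have hfeq : ∀ k l, f k = f l → N k = N l ∧ b k = b l := by
    intro k l hkl
    simp only [hf] at hkl
    have h1 := congrArg Sigma.fst hkl
    have h2 : b k = b l := by
      have := (Sigma.mk.inj_iff.mp hkl).2
      exact eq_of_heq this
    simp only [Prod.mk.injEq, decide_eq_decide] at h1
    have h3 := hN0 k
    have h4 := hN0 l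
    refine ⟨?_, h2⟩
    omega
  -- a pair of distinct elements with the same label
  have hpair : ∃ k < K, ∃ l < K, f k = f l ∧ r k ≠ r l := by
    by_contra hcon
    push Not at hcon
    set t : Finset (Σ _ : Bool × ℕ, ℕ) := ((Finset.univ : Finset Bool) ×ˢ Finset.Ioc 0 x).sigma
      (fun z => (Finset.range z.2).filter (fun c : ℕ => (z.2 : ℤ) ∣ (c : ℤ) ^ 2 - (A : ℤ))) with ht
    have hmaps : ∀ k ∈ Finset.range K, f k ∈ t := by
      intro k _
      rw [ht, Finset.mem_sigma, Finset.mem_product, Finset.mem_filter, Finset.mem_range, Finset.mem_Ioc]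
      simp only [hf]
      refine ⟨⟨Finset.mem_univ _, ?_, ?_⟩, hb1 k, ?_⟩
      · exact Int.natAbs_pos.mpr (hN0 k)
      · have := hsize k 0 (by
          have := hden k
          simp only [hq, pow_zero, mul_one]
          exact_mod_cast this)
        simpa using this
      · exact Int.natAbs_dvd.mpr (hb3 k)
    have hcard : K = ∑ z ∈ t, ((Finset.range K).filter (fun k => f k = z)).card := by
      have := Finset.card_eq_sum_card_fiberwise (s := Finset.range K) (t := t) (f := f) hmaps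
      rwa [Finset.card_range] at this
    have hfib : ∀ z ∈ t, ((Finset.range K).filter (fun k => f k = z)).card ≤ scales x z.1.2 := by
      intro z _
      set F := (Finset.range K).filter (fun k => f k = z) with hF
      rcases F.eq_empty_or_nonempty with h0 | hne
      · rw [h0]; simp
      set k0 := F.min' hne with hk0
      have hk0F : k0 ∈ F := Finset.min'_mem F hne
      have hk0' : k0 < K ∧ f k0 = z := by
        rw [hF, Finset.mem_filter, Finset.mem_range] at hk0F; exact hk0F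
      rw [scales]
      refine Finset.card_le_card_of_injOn (fun k => k - k0) ?_ ?_
      · intro k hk
        have hk' : k < K ∧ f k = z := by
          rw [Finset.mem_coe, hF, Finset.mem_filter, Finset.mem_range] at hk; exact hk
        have hle : k0 ≤ k := Finset.min'_le F k hk
        have hrr : r k = r k0 := hcon k hk'.1 k0 hk0'.1 (by rw [hk'.2, hk0'.2])
        have hnz : (N k).natAbs = z.1.2 := by
          rw [← hk'.2]
        have h1 : 2 ^ (k - k0) * (N k).natAbs ≤ x := by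
          apply hsize
          have h2 : (q k : ℝ) ≤ 2 ^ k0 := by
            have := hden k0
            simp only [hq]
            rw [hrr]
            exact_mod_cast this
          calc (q k : ℝ) * 2 ^ (k - k0) ≤ 2 ^ k0 * 2 ^ (k - k0) := by gcongr
            _ = 2 ^ k := by rw [← pow_add]; congr 1; omega
        rw [hnz] at h1
        have hpos : 0 < z.1.2 := by rw [← hnz]; exact Int.natAbs_pos.mpr (hN0 k)
        simp only [Finset.coe_filter, Finset.mem_range, Set.mem_ofPred_eq]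
        refine ⟨?_, h1⟩
        have h3 : k - k0 < 2 ^ (k - k0) := Nat.lt_two_pow_self
        have h4 : 2 ^ (k - k0) ≤ 2 ^ (k - k0) * z.1.2 := Nat.le_mul_of_pos_right _ hpos
        omega
      · intro k hk l hl hkl
        have hle : k0 ≤ k := Finset.min'_le F k hk
        have hle' : k0 ≤ l := Finset.min'_le F l hl
        simp only at hkl
        omega
    have h1 : K ≤ ∑ z ∈ t, scales x z.1.2 := by
      calc K = ∑ z ∈ t, ((Finset.range K).filter (fun k => f k = z)).card := hcard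
        _ ≤ _ := Finset.sum_le_sum hfib
    have h2 : ∑ z ∈ t, scales x z.1.2 ≤ 4 * ∑ n ∈ Finset.Ioc 0 x, (Nat.divisors n).card * scales x n := by
      rw [ht, Finset.sum_sigma, Finset.sum_product]
      simp only [Finset.sum_const, smul_eq_mul, Finset.card_univ, Fintype.card_bool]
      have h3 : ∀ n ∈ Finset.Ioc 0 x,
          ((Finset.range n).filter (fun c : ℕ => (n : ℤ) ∣ (c : ℤ) ^ 2 - (A : ℤ))).card * scales x n
          ≤ 2 * ((Nat.divisors n).card * scales x n) := by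
        intro n hn
        rw [Finset.mem_Ioc] at hn
        have := roots_card hA n hn.1
        calc _ ≤ (2 * (Nat.divisors n).card) * scales x n := Nat.mul_le_mul_right _ this
          _ = _ := by ring
      have h4 := Finset.sum_le_sum h3
      rw [← Finset.mul_sum] at h4
      omega
    have h5 := div_sum x
    have h6 : (K : ℝ) ≤ 4 * ((∑ n ∈ Finset.Ioc 0 x, (Nat.divisors n).card * scales x n : ℕ) : ℝ) := by
      exact_mod_cast h1.trans h2
    linarith
  obtain ⟨k, hkK, l, hlK, hkl, hrne⟩ := hpair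
  obtain ⟨hNN, hbb⟩ := hfeq k l hkl
  have hne : p k * q l ≠ p l * q k := by
    intro h
    apply hrne
    rw [Rat.eq_iff_mul_eq_mul]
    exact h
  obtain ⟨a, t, hat, ht0, htN⟩ := unit_of_pair A (p k) (q k) (p l) (q l) (N k) (b k) (hN0 k) rfl
    (by rw [hNN]) (hb2 k) (by rw [hNN, hbb]; exact hb2 l) (hb3 k) hne
  refine ⟨a, t, hat, ht0, ?_⟩
  have hN1 : 1 ≤ |N k| := Int.one_le_abs (hN0 k)
  have h1 : |t| ≤ |p k * q l - p l * q k| := by
    rw [htN, abs_mul]
    nlinarith [abs_nonneg t]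
  have h2 : (|((p k * q l - p l * q k : ℤ) : ℝ)|) * 2 ≤ 2 ^ K := by
    have h3 : ((p k * q l - p l * q k : ℤ) : ℝ) = ((q l : ℝ) * w - p l) * q k - ((q k : ℝ) * w - p k) * q l := by
      push_cast; ring
    have hqk : (q k : ℝ) ≤ 2 ^ k := by
      have := hden k
      simp only [hq]
      exact_mod_cast this
    have hql : (q l : ℝ) ≤ 2 ^ l := by
      have := hden l
      simp only [hq]
      exact_mod_cast this
    have hqk0 : (0 : ℝ) ≤ q k := by exact_mod_cast (by linarith [hq1 k] : (0 : ℤ) ≤ q k)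
    have hql0 : (0 : ℝ) ≤ q l := by exact_mod_cast (by linarith [hq1 l] : (0 : ℤ) ≤ q l)
    have hhalf : ∀ m : ℕ, 1 / ((2 : ℝ) ^ m + 1) ≤ 1 / 2 := by
      intro m
      have : (1 : ℝ) ≤ 2 ^ m := one_le_pow₀ (by norm_num)
      gcongr
      linarith
    have hk2 : (2 : ℝ) ^ k ≤ 2 ^ (K - 1) := pow_le_pow_right₀ (by norm_num) (by omega)
    have hl2 : (2 : ℝ) ^ l ≤ 2 ^ (K - 1) := pow_le_pow_right₀ (by norm_num) (by omega)
    rw [h3]
    calc |((q l : ℝ) * w - p l) * q k - ((q k : ℝ) * w - p k) * q l| * 2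
        ≤ (|((q l : ℝ) * w - p l) * q k| + |((q k : ℝ) * w - p k) * q l|) * 2 := by
          gcongr; exact abs_sub _ _
      _ = (|(q l : ℝ) * w - p l| * q k + |(q k : ℝ) * w - p k| * q l) * 2 := by
          rw [abs_mul, abs_mul, abs_of_nonneg hqk0, abs_of_nonneg hql0]
      _ ≤ (1 / 2 * 2 ^ (K - 1) + 1 / 2 * 2 ^ (K - 1)) * 2 := by
          gcongr
          · exact (happ l).trans (hhalf l)
          · exact hqk.trans hk2
          · exact (happ k).trans (hhalf k)
          · exact hql.trans hl2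
      _ = 2 ^ (K - 1 + 1) := by ring
      _ = 2 ^ K := by congr 1; omega
  have h4 : |p k * q l - p l * q k| * 2 ≤ 2 ^ K := by exact_mod_cast h2
  linarith

end Pool.Agent.helper69.SqFree
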