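import Mathlib
import Pool.Agent.helper69.SqFree.UnitBound
import Pool.Agent.helper69.SqFree.Fund

namespace Pool.Agent.helper69.SqFree

lemma not_sq_add_one (X r : ℕ) (hX : 1 ≤ X) : X ^ 2 + 1 ≠ r ^ 2 := by
  intro h
  have h1 : X < r := by nlinarith
  nlinarith

lemma five_le {A B X : ℕ} (hX : 1 ≤ X) (hodd : Even X) (h : X ^ 2 + 1 = A * B ^ 2) : 5 ≤ A := by
  by_contra hlt
  push Not at hlt
  have hXX : (X ^ 2 + 1) % 4 = 1 := by
    obtain ⟨k, hk⟩ := hodd
    have : X ^ 2 + 1 = 4 * k ^ 2 + 1 := by rw [hk]; ring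
    omega
  interval_cases A
  · omega
  · exact not_sq_add_one X B hX (by linarith)
  · omega
  · -- A = 3
    have h1 : (X ^ 2 + 1) % 3 = 0 := by rw [h]; omega
    have h2 : X % 3 = 0 ∨ X % 3 = 1 ∨ X % 3 = 2 := by omega
    rcases h2 with h2 | h2 | h2 <;> simp [Nat.add_mod, Nat.pow_mod, h2] at h1
  · omega

/-- The bound for squarefree `A`. -/
theorem main_squarefree (e A B : ℕ) (he : 1 ≤ e) (hA : Squarefree A)
    (h : (2 ^ e) ^ 2 + 1 = A * B ^ 2) : ((2 * e : ℕ) : ℝ) ≤ 26 * √(A : ℝ) * Real.log A := by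
  have hX1 : 1 ≤ 2 ^ e := Nat.one_le_two_pow
  have hXe : Even (2 ^ e) := (Nat.even_pow).mpr ⟨even_two, by omega⟩
  have hA5 : 5 ≤ A := five_le hX1 hXe h
  have hns : ¬ IsSquare A := by
    rintro ⟨r, hr⟩
    apply not_sq_add_one (2 ^ e) (r * B) hX1
    rw [h, hr]; ring
  have hB0 : 0 < B := by
    rcases Nat.eq_zero_or_pos B with h0 | h0
    · subst h0; simp at h
    · exact h0
  set x : ℕ := Nat.sqrt (4 * A) with hx
  set w := √(A : ℝ) with hw
  have hw0 : 0 ≤ w := Real.sqrt_nonneg _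
  have hw2 : w ^ 2 = A := Real.sq_sqrt (by positivity)
  have hA5' : (5 : ℝ) ≤ A := by exact_mod_cast hA5
  have hw5 : 2.23 ≤ w := by
    rw [hw]; apply Real.le_sqrt_of_sq_le; norm_num; linarith
  have hx2w : (x : ℝ) ≤ 2 * w := by
    have h1 : (x : ℝ) ^ 2 ≤ (2 * w) ^ 2 := by
      have h2 : x ^ 2 ≤ 4 * A := Nat.sqrt_le' (4 * A)
      rw [mul_pow, hw2]
      norm_num
      exact_mod_cast h2
    exact le_of_sq_le_sq h1 (by positivity)
  have hx1 : 1 ≤ x := by
    rw [hx, Nat.le_sqrt']; omega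
  have hx1' : (1 : ℝ) ≤ x := by exact_mod_cast hx1
  set Y : ℝ := 8 * (x : ℝ) * (1 + Real.log x) with hY
  have hlogx : 0 ≤ Real.log x := Real.log_nonneg hx1'
  have hY0 : 0 ≤ Y := by positivity
  set K : ℕ := ⌊Y⌋₊ + 1 with hK
  have hYK : Y < K := by
    rw [hK]; push_cast; exact Nat.lt_floor_add_one Y
  have hKY : (K : ℝ) ≤ Y + 1 := by
    rw [hK]; push_cast
    linarith [Nat.floor_le hY0]
  obtain ⟨a, t, hat, ht0, ht⟩ := exists_small_pell hA hns K hYK
  have hlow := two_pow_le (by omega) hns e (B : ℤ) (by exact_mod_cast hB0)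
    (by exact_mod_cast h) a t hat ht0
  have h1 : (2 : ℤ) * (2 * 2 ^ e * B) ≤ 2 ^ K := by linarith
  have h2 : (2 : ℝ) * (2 * 2 ^ e * B) ≤ 2 ^ K := by exact_mod_cast h1
  have hBw : (2 : ℝ) ^ e ≤ w * B := by
    have h3 : ((2 : ℝ) ^ e) ^ 2 ≤ (w * B) ^ 2 := by
      have h4 : ((2 : ℝ) ^ e) ^ 2 + 1 = A * (B : ℝ) ^ 2 := by exact_mod_cast h
      rw [mul_pow, hw2]; linarith
    exact le_of_sq_le_sq h3 (by positivity)
  have h5 : (2 : ℝ) ^ (2 * e + 2) ≤ w * 2 ^ K := by
    calc (2 : ℝ) ^ (2 * e + 2) = 2 ^ e * (2 * (2 * 2 ^ e)) := by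
          rw [pow_add, two_mul, pow_add]; ring
      _ ≤ (w * B) * (2 * (2 * 2 ^ e)) := by gcongr
      _ = w * (2 * (2 * 2 ^ e * B)) := by ring
      _ ≤ w * 2 ^ K := by gcongr
  have hwpos : 0 < w := by linarith
  have h6 : ((2 * e + 2 : ℕ) : ℝ) * Real.log 2 ≤ Real.log w + K * Real.log 2 := by
    have h7 := Real.log_le_log (by positivity) h5
    rw [Real.log_pow, Real.log_mul hwpos.ne' (by positivity), Real.log_pow] at h7
    exact h7
  have hlogw : Real.log w = Real.log A / 2 := Real.log_sqrt (by positivity)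
  set l := Real.log A with hl
  have hl2a := Real.log_two_gt_d9
  have hl2b := Real.log_two_lt_d9
  have hl5 : 1.58 ≤ l := by
    have h8 : Real.log ((2 : ℝ) ^ 16) ≤ Real.log ((5 : ℝ) ^ 7) :=
      Real.log_le_log (by norm_num) (by norm_num)
    rw [Real.log_pow, Real.log_pow] at h8
    have h9 : Real.log 5 ≤ l := Real.log_le_log (by norm_num) hA5'
    push_cast at h8
    linarith
  have hlogx2 : Real.log x ≤ Real.log 2 + l / 2 := by
    have h8 := Real.log_le_log (by linarith) hx2w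
    rw [Real.log_mul (by norm_num) hwpos.ne', hlogw] at h8
    exact h8
  have hYb : Y ≤ 16 * w * (1 + (Real.log 2 + l / 2)) := by
    rw [hY]
    have h9 : 8 * (x : ℝ) ≤ 16 * w := by linarith
    calc 8 * (x : ℝ) * (1 + Real.log x) ≤ 16 * w * (1 + Real.log x) := by gcongr
      _ ≤ _ := by gcongr
  -- divide by log 2
  have h10 : ((2 * e + 2 : ℕ) : ℝ) ≤ 0.722 * l + K := by
    have h11 : 0.722 * l * Real.log 2 ≥ l / 2 := by nlinarith
    have h12 : ((2 * e + 2 : ℕ) : ℝ) * Real.log 2 ≤ (0.722 * l + K) * Real.log 2 := by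
      rw [hlogw] at h6; nlinarith
    exact le_of_mul_le_mul_right h12 (by linarith)
  push_cast at h10 ⊢
  have h13 : 16 * w * (1 + (Real.log 2 + l / 2)) ≤ 16 * w * (1 + (0.6932 + l / 2)) := by
    gcongr
    linarith
  have hwl : 0 ≤ (w - 2.23) * (l - 1.58) := mul_nonneg (by linarith) (by linarith)
  nlinarith

/-- The bound for arbitrary `A`. -/
theorem main_even (e A B : ℕ) (h : (2 ^ e) ^ 2 + 1 = A * B ^ 2) :
    ((2 * e : ℕ) : ℝ) ≤ 26 * √(A : ℝ) * Real.log A := by
  have hA0 : 0 < A := by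
    rcases Nat.eq_zero_or_pos A with h0 | h0
    · subst h0; simp at h
    · exact h0
  have hA1 : (1 : ℝ) ≤ A := by exact_mod_cast hA0
  rcases Nat.eq_zero_or_pos e with h0 | he
  · subst h0
    have : 0 ≤ Real.log A := Real.log_nonneg hA1
    have h2 : (0 : ℝ) ≤ 26 * √(A : ℝ) * Real.log A := by positivity
    simpa using h2
  · obtain ⟨a, b, hab, hsq⟩ := Nat.sq_mul_squarefree A
    have ha0 : 0 < a := by
      rcases Nat.eq_zero_or_pos a with h0 | h0
      · subst h0; simp at hab; omega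
      · exact h0
    have hb0 : 0 < b := by
      rcases Nat.eq_zero_or_pos b with h0 | h0
      · subst h0; simp at hab; omega
      · exact h0
    have haA : a ≤ A := by
      rw [← hab]; exact Nat.le_mul_of_pos_left _ (by positivity)
    have h1 := main_squarefree e a (b * B) he hsq (by rw [h, ← hab]; ring)
    have haA' : (a : ℝ) ≤ A := by exact_mod_cast haA
    have ha1 : (1 : ℝ) ≤ a := by exact_mod_cast ha0
    refine h1.trans ?_
    have h2 : 0 ≤ Real.log a := Real.log_nonneg ha1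
    have h3 : Real.log a ≤ Real.log A := Real.log_le_log (by linarith) haA'
    have h4 : √(a : ℝ) ≤ √(A : ℝ) := Real.sqrt_le_sqrt haA'
    gcongr

theorem fermat_bound (m A B : ℕ) (h : Nat.fermatNumber m = A * B ^ 2) :
    (2 : ℝ) ^ m ≤ 26 * √(A : ℝ) * Real.log A := by
  rw [Nat.fermatNumber] at h
  rcases Nat.eq_zero_or_pos m with h0 | hm
  · subst h0
    norm_num at h
    have hB : B ≤ 1 := by
      by_contra hB
      push Not at hB
      have h1 : 4 ≤ B ^ 2 := by nlinarith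
      have hA0 : 0 < A := by
        rcases Nat.eq_zero_or_pos A with h0 | h0
        · subst h0; simp at h
        · exact h0
      nlinarith
    interval_cases B
    · simp at h
    · have hA3 : A = 3 := by omega
      subst hA3
      have h1 : 1 ≤ √(3 : ℝ) := by rw [Real.one_le_sqrt]; norm_num
      have h2 : Real.log 2 ≤ Real.log 3 := Real.log_le_log (by norm_num) (by norm_num)
      have h3 := Real.log_two_gt_d9
      push_cast
      nlinarith
  · have h1 : (2 ^ (2 ^ (m - 1))) ^ 2 + 1 = A * B ^ 2 := by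
      rw [← h, ← pow_mul, ← pow_succ]
      congr 3
      omega
    have h2 := main_even _ A B h1
    have h3 : ((2 * 2 ^ (m - 1) : ℕ) : ℝ) = 2 ^ m := by
      push_cast
      rw [← pow_succ']
      congr 1
      omega
    rwa [h3] at h2

theorem nn_bound (j A B : ℕ) (h : (2 ^ j) ^ (2 ^ j) + 1 = A * B ^ 2) :
    (j : ℝ) * 2 ^ j ≤ 26 * √(A : ℝ) * Real.log A := by
  rcases Nat.eq_zero_or_pos j with h0 | hj
  · subst h0
    have hA0 : 0 < A := by
      rcases Nat.eq_zero_or_pos A with h0 | h0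
      · subst h0; simp at h
      · exact h0
    have hA1 : (1 : ℝ) ≤ A := by exact_mod_cast hA0
    have : 0 ≤ Real.log A := Real.log_nonneg hA1
    have h2 : (0 : ℝ) ≤ 26 * √(A : ℝ) * Real.log A := by positivity
    simpa using h2
  · have h1 : (2 ^ (j * 2 ^ (j - 1))) ^ 2 + 1 = A * B ^ 2 := by
      rw [← h, ← pow_mul, ← pow_mul]
      congr 2
      obtain ⟨i, rfl⟩ : ∃ i, j = i + 1 := ⟨j - 1, by omega⟩
      simp only [Nat.add_sub_cancel]
      rw [pow_succ]; ring
    have h2 := main_even _ A B h1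
    have h3 : ((2 * (j * 2 ^ (j - 1)) : ℕ) : ℝ) = (j : ℝ) * 2 ^ j := by
      push_cast
      obtain ⟨i, rfl⟩ : ∃ i, j = i + 1 := ⟨j - 1, by omega⟩
      simp only [Nat.add_sub_cancel]
      rw [pow_succ]; push_cast; ring
    rwa [h3] at h2

end Pool.Agent.helper69.SqFree
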